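import Pool.Agent.E8helper54.HM.Abs0

/-! Part ABS of the project on hidden multiplicities. -/

set_option autoImplicit false

open Filter Topology Pool.Agent.E8helper58.HM

namespace Pool.Agent.E8helper54.HM

theorem abs_part : S_ABS := by
  intro W _ _ E B e F c C κ hEs hBs hE hB hee hFF heFe hc0 hc1 heE heB hFE hFB hV hκ hP
  -- constants
  set k : ℝ := c - c * c with hk
  have hkpos : 0 < k := by rw [hk]; nlinarith
  have hkne : k ≠ 0 := hkpos.ne'
  -- the three projections
  set v : W →ₗ[ℝ] W := (LinearMap.id - e) ∘ₗ F ∘ₗ e with hv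
  set v' : W →ₗ[ℝ] W := e ∘ₗ F ∘ₗ (LinearMap.id - e) with hv'
  set Q : W →ₗ[ℝ] W := k⁻¹ • (v ∘ₗ v') with hQ
  set R : W →ₗ[ℝ] W := LinearMap.id - e - Q with hR
  have vapp : ∀ f, v f = F (e f) - e (F (e f)) := fun f => by simp [hv]
  have v'app : ∀ f, v' f = e (F (f - e f)) := fun f => by simp [hv']
  have Qapp : ∀ f, Q f = k⁻¹ • v (v' f) := fun f => by simp [hQ]
  have Rapp : ∀ f, R f = f - e f - Q f := fun f => by simp [hR]
  have vv : ∀ f, v' (v f) = k • e f := by
    intro f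
    rw [v'app, vapp]
    have h1 : F (e f) - e (F (e f)) - e (F (e f) - e (F (e f))) = F (e f) - e (F (e f)) := by
      rw [map_sub, hee, sub_self, sub_zero]
    rw [h1, map_sub, hFF, heFe, map_smul, map_sub, map_smul, heFe, hk, sub_smul, smul_smul]
  have ve : ∀ f, v (e f) = v f := fun f => by rw [vapp, vapp, hee]
  have ev' : ∀ f, e (v' f) = v' f := fun f => by rw [v'app, hee]
  have ev : ∀ f, e (v f) = 0 := fun f => by rw [vapp, map_sub, hee, sub_self]
  have v'e : ∀ f, v' (e f) = 0 := fun f => by rw [v'app, hee, sub_self, map_zero, map_zero]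
  have eQ : ∀ f, e (Q f) = 0 := fun f => by rw [Qapp, map_smul, ev, smul_zero]
  have Qe : ∀ f, Q (e f) = 0 := fun f => by rw [Qapp, v'e, map_zero, smul_zero]
  have QQ : ∀ f, Q (Q f) = Q f := by
    intro f
    rw [Qapp f, map_smul, Qapp, vv, ev', map_smul, inv_smul_smul₀ hkne]
  -- adjoints, for any form for which `e`, `F` are self-adjoint
  have key : ∀ G : LinearMap.BilinForm ℝ W, (∀ f g, G f g = G g f) →
      (∀ f g, G (e f) g = G f (e g)) → (∀ f g, G (F f) g = G f (F g)) →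
      (∀ f g, G (v f) g = G f (v' g)) ∧ (∀ f g, G (Q f) g = G f (Q g)) ∧
      (∀ f g, G (R f) g = G f (R g)) := by
    intro G hGs hGe hGF
    have h1 : ∀ f g, G (v f) g = G f (v' g) := by
      intro f g
      rw [vapp, v'app, map_sub, LinearMap.sub_apply, hGe (F (e f)) g, hGF, hGF, hGe, hGe,
        map_sub, map_sub, map_sub]
    have h1' : ∀ f g, G (v' f) g = G f (v g) := fun f g => by rw [hGs, ← h1, hGs]
    have h2 : ∀ f g, G (Q f) g = G f (Q g) := by
      intro f g
      rw [Qapp, Qapp, map_smul, LinearMap.smul_apply, h1, h1', map_smul]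
    refine ⟨h1, h2, fun f g => ?_⟩
    rw [Rapp, Rapp]
    simp only [map_sub, LinearMap.sub_apply]
    rw [hGe, h2]
  -- quadratic forms
  set q : ℝ → LinearMap.BilinForm ℝ W := fun t => E - t • B with hq
  have qapp : ∀ t f g, q t f g = E f g - t * B f g := fun t f g => by
    simp [hq]
  have qs : ∀ t f g, q t f g = q t g f := fun t f g => by rw [qapp, qapp, hEs, hBs]
  have qe : ∀ t f g, q t (e f) g = q t f (e g) := fun t f g => by
    rw [qapp, qapp, heE, heB]
  have qF : ∀ t f g, q t (F f) g = q t f (F g) := fun t f g => by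
    rw [qapp, qapp, hFE, hFB]
  have qv := fun t => (key (q t) (qs t) (qe t) (qF t)).1
  have qQ := fun t => (key (q t) (qs t) (qe t) (qF t)).2.1
  have qR := fun t => (key (q t) (qs t) (qe t) (qF t)).2.2
  have eR : ∀ f, e (R f) = 0 := fun f => by
    rw [Rapp, map_sub, map_sub, hee, eQ, sub_self, sub_zero]
  have Re : ∀ f, R (e f) = 0 := fun f => by
    rw [Rapp, hee, Qe, sub_self, sub_zero]
  have QR : ∀ f, Q (R f) = 0 := fun f => by
    rw [Rapp, map_sub, map_sub, QQ, Qe, sub_zero, sub_self]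
  have RQ : ∀ f, R (Q f) = 0 := fun f => by
    rw [Rapp, eQ, QQ, sub_zero, sub_self]
  have RR : ∀ f, R (R f) = R f := fun f => by
    rw [Rapp (R f), eR, QR, sub_zero, sub_zero]
  let P : Fin 3 → W →ₗ[ℝ] W := ![e, Q, R]
  have hsum : ∀ t f, q t f f = ∑ j, q t (P j f) (P j f) := by
    intro t f
    rw [Fin.sum_univ_three]
    simp only [P, Matrix.cons_val_zero, Matrix.cons_val_one, Matrix.cons_val]
    rw [qe, hee, qQ, QQ, qR, RR, Rapp, map_sub, map_sub]
    ring
  -- transfer between the first and the second part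
  have T12 : ∀ t m, Neg (q t) (LinearMap.range e) m → Neg (q t) (LinearMap.range Q) m := by
    intro t m h
    refine neg_transfer v hkpos ?_ ?_ h
    · rintro _ ⟨f, rfl⟩
      refine ⟨v f, ?_⟩
      rw [Qapp, vv, map_smul, smul_smul, inv_mul_cancel₀ hkne, one_smul]
    · rintro _ ⟨f, rfl⟩
      rw [qv, vv, map_smul, smul_eq_mul, hee]
  have T21 : ∀ t m, Neg (q t) (LinearMap.range Q) m → Neg (q t) (LinearMap.range e) m := by
    intro t m h
    refine neg_transfer v' hkpos ?_ ?_ h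
    · rintro _ ⟨f, rfl⟩
      exact ⟨v' (Q f), ev' _⟩
    · rintro _ ⟨f, rfl⟩
      have h1 : v (v' (Q f)) = k • Q f := by
        have := QQ f
        rw [Qapp (Q f)] at this
        rw [← this, smul_smul, mul_inv_cancel₀ hkne, one_smul]
        rw [this]
      rw [qs, ← qv, h1, map_smul, LinearMap.smul_apply, smul_eq_mul]
  have hsplit : ∀ t m, Neg (q t) ⊤ m → ∃ m1 m2 m3, m ≤ m1 + m2 + m3 ∧
      Neg (q t) (LinearMap.range e) m1 ∧ Neg (q t) (LinearMap.range e) m2 ∧
      Neg (q t) (LinearMap.range R) m3 := by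
    intro t m h
    obtain ⟨d, hd, hn⟩ := neg_split (qs t) P (hsum t) h
    rw [Fin.sum_univ_three] at hd
    exact ⟨d 0, d 1, d 2, hd, hn 0, T21 t _ (hn 1), hn 2⟩
  have hadd : ∀ t a b d, Neg (q t) (LinearMap.range e) a → Neg (q t) (LinearMap.range e) b →
      Neg (q t) (LinearMap.range R) d → Neg (q t) ⊤ (a + b + d) := by
    intro t a b d h1 h2 h3
    have h2' := T12 t _ h2
    have o12 : ∀ f ∈ LinearMap.range e, ∀ g ∈ LinearMap.range Q, q t f g = 0 := by
      rintro _ ⟨f, rfl⟩ _ ⟨g, rfl⟩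
      rw [qe, eQ, map_zero]
    have h12 : Neg (q t) (LinearMap.range e ⊔ LinearMap.range Q) (a + b) :=
      neg_add' le_sup_left le_sup_right o12 (fun f hf g hg => by rw [qs]; exact o12 f hf g hg)
        h1 h2'
    have o3 : ∀ f ∈ LinearMap.range e ⊔ LinearMap.range Q, ∀ g ∈ LinearMap.range R,
        q t f g = 0 := by
      rintro f hf _ ⟨g, rfl⟩
      obtain ⟨_, ⟨x, rfl⟩, _, ⟨y, rfl⟩, rfl⟩ := Submodule.mem_sup.1 hf
      rw [map_add, LinearMap.add_apply, qe, eR, qQ, QR, map_zero, map_zero, add_zero]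
    exact neg_add' le_top le_top o3 (fun f hf g hg => by rw [qs]; exact o3 f hf g hg) h12 h3
  have hne1 : ∀ i : ℕ, {t : ℝ | 0 ≤ t ∧ ∃ V : Submodule ℝ W, V ≤ LinearMap.range e ∧
      Module.finrank ℝ V = i + 1 ∧ ∀ f ∈ V, E f f ≤ t * B f f}.Nonempty := by
    intro i
    obtain ⟨V, hVe, hVr, hVf⟩ := hV i
    refine ⟨max 0 (C * (i + 1)), le_max_left _ _, V, hVe, hVr, fun f hf => ?_⟩
    refine (hVf f hf).trans ?_
    have hBf : 0 ≤ B f f := by
      by_cases h0 : f = 0
      · subst h0; simp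
      · exact (hB f h0).le
    exact mul_le_mul_of_nonneg_right (le_max_right _ _) hBf
  have hneW : ∀ i : ℕ, {t : ℝ | 0 ≤ t ∧ ∃ V : Submodule ℝ W, V ≤ ⊤ ∧
      Module.finrank ℝ V = i + 1 ∧ ∀ f ∈ V, E f f ≤ t * B f f}.Nonempty := by
    intro i
    obtain ⟨t, ht, V, -, h⟩ := hne1 i
    exact ⟨t, ht, V, le_top, h⟩
  have hmuU : ∀ i, mu E B i = muU E B ⊤ i := by
    intro i
    simp only [mu, muU, le_top, true_and]
  have hBnn : ∀ f, 0 ≤ B f f := fun f => by
    by_cases h0 : f = 0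
    · subst h0; simp
    · exact (hB f h0).le
  have hsC : ∀ i : ℕ, muU E B (LinearMap.range e) i ≤ C * (i + 1) := by
    intro i
    obtain ⟨V, hVe, hVr, hVf⟩ := hV i
    refine csInf_le ⟨0, fun _ ht => ht.1⟩ ⟨?_, V, hVe, hVr, hVf⟩
    have : Module.Finite ℝ V := Module.finite_of_finrank_eq_succ hVr
    have hVne : V ≠ ⊥ := by
      rintro rfl
      simp at hVr
    obtain ⟨f, hf, hf0⟩ := Submodule.exists_mem_ne_zero_of_ne_bot hVne
    have h1 := hVf f hf
    have h2 := hE f
    have h3 := hB f hf0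
    by_contra hlt
    push Not at hlt
    nlinarith
  refine abs_core (fun t m => Neg (q t) ⊤ m) (fun t m => Neg (q t) (LinearMap.range e) m)
    (fun t m => Neg (q t) (LinearMap.range R) m) (mu E B) (muU E B (LinearMap.range e)) C κ hκ
    hsplit hadd ?_ ?_ (fun t m m' h => neg_le h) (fun t m m' h => neg_le h)
    (fun t => neg_zero' _ _) (fun t => neg_zero' _ _) ?_ ?_ ?_ ?_ ?_ hsC hP
  · intro t t' m htt
    refine neg_form fun f => ?_
    rw [qapp, qapp]
    nlinarith [hBnn f]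
  · intro t t' m htt
    refine neg_form fun f => ?_
    rw [qapp, qapp]
    nlinarith [hBnn f]
  · intro i t h
    rw [hmuU] at h
    exact neg_of_muU_lt hB (hneW i) h
  · intro i t h
    rw [hmuU]
    exact muU_le_of_neg hE hB h
  · intro i t h
    exact neg_of_muU_lt hB (hne1 i) h
  · intro i t h
    exact muU_le_of_neg hE hB h
  · intro i
    rw [hmuU]
    exact muU_nonneg _ _ _ _

end Pool.Agent.E8helper54.HM
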