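import Pool.Agent.E8helper58.HM.Stm

/-! Linear algebra of negative definite tuples, and a counting lemma. -/

set_option autoImplicit false

open Filter Topology Pool.Agent.E8helper58.HM

namespace Pool.Agent.E8helper54.HM

section NegT

variable {W : Type} [AddCommGroup W] [Module ℝ W]

/-- `U` contains an `m`-tuple on which `q` is negative definite. -/
def Neg (q : LinearMap.BilinForm ℝ W) (U : Submodule ℝ W) (m : ℕ) : Prop :=
  ∃ b : Fin m → W, (∀ i, b i ∈ U) ∧
    ∀ a : Fin m → ℝ, a ≠ 0 → q (∑ i, a i • b i) (∑ i, a i • b i) < 0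

theorem neg_zero' (q : LinearMap.BilinForm ℝ W) (U : Submodule ℝ W) : Neg q U 0 :=
  ⟨fun i => i.elim0, fun i => i.elim0, fun _ ha => (ha (Subsingleton.elim _ _)).elim⟩

theorem neg_mono {q : LinearMap.BilinForm ℝ W} {U U' : Submodule ℝ W} (h : U ≤ U') {m : ℕ}
    (hm : Neg q U m) : Neg q U' m := by
  obtain ⟨b, hb, hn⟩ := hm
  exact ⟨b, fun i => h (hb i), hn⟩

theorem neg_pred {q : LinearMap.BilinForm ℝ W} {U : Submodule ℝ W} {m : ℕ}
    (hm : Neg q U (m + 1)) : Neg q U m := by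
  obtain ⟨b, hb, hn⟩ := hm
  refine ⟨fun i => b i.castSucc, fun i => hb _, fun a ha => ?_⟩
  have hs : ∑ i, (Fin.snoc a (0 : ℝ) : Fin (m + 1) → ℝ) i • b i = ∑ i, a i • b i.castSucc := by
    rw [Fin.sum_univ_castSucc]
    simp
  have := hn (Fin.snoc a (0 : ℝ)) ?_
  · rwa [hs] at this
  · intro h0
    apply ha
    funext i
    have := congrFun h0 i.castSucc
    simpa using this

theorem neg_le {q : LinearMap.BilinForm ℝ W} {U : Submodule ℝ W} {m m' : ℕ} (h : m' ≤ m)
    (hm : Neg q U m) : Neg q U m' := by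
  induction m, h using Nat.le_induction with
  | base => exact hm
  | succ n _ ih => exact ih (neg_pred hm)

theorem neg_form {q q' : LinearMap.BilinForm ℝ W} (h : ∀ f, q' f f ≤ q f f)
    {U : Submodule ℝ W} {m : ℕ} (hm : Neg q U m) : Neg q' U m := by
  obtain ⟨b, hb, hn⟩ := hm
  exact ⟨b, hb, fun a ha => (h _).trans_lt (hn a ha)⟩

theorem neg_nonpos {q : LinearMap.BilinForm ℝ W} {m : ℕ} {b : Fin m → W}
    (hn : ∀ a : Fin m → ℝ, a ≠ 0 → q (∑ i, a i • b i) (∑ i, a i • b i) < 0) (a : Fin m → ℝ) :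
    q (∑ i, a i • b i) (∑ i, a i • b i) ≤ 0 := by
  by_cases ha : a = 0
  · subst ha
    simp
  · exact (hn a ha).le

theorem neg_add' {q : LinearMap.BilinForm ℝ W} {U U' V : Submodule ℝ W} (hU : U ≤ V)
    (hU' : U' ≤ V) (ho : ∀ f ∈ U, ∀ g ∈ U', q f g = 0) (ho' : ∀ f ∈ U, ∀ g ∈ U', q g f = 0)
    {k l : ℕ} (hk : Neg q U k) (hl : Neg q U' l) : Neg q V (k + l) := by
  obtain ⟨b, hb, hn⟩ := hk
  obtain ⟨b', hb', hn'⟩ := hl
  refine ⟨Fin.append b b', fun i => ?_, fun a ha => ?_⟩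
  · refine Fin.addCases (fun j => ?_) (fun j => ?_) i
    · rw [Fin.append_left]; exact hU (hb j)
    · rw [Fin.append_right]; exact hU' (hb' j)
  · rw [Fin.sum_univ_add]
    simp only [Fin.append_left, Fin.append_right]
    have hx : ∑ i : Fin k, a (Fin.castAdd l i) • b i ∈ U :=
      Submodule.sum_mem _ fun i _ => Submodule.smul_mem _ _ (hb i)
    have hy : ∑ i : Fin l, a (Fin.natAdd k i) • b' i ∈ U' :=
      Submodule.sum_mem _ fun i _ => Submodule.smul_mem _ _ (hb' i)
    simp only [map_add, LinearMap.add_apply]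
    rw [ho _ hx _ hy, ho' _ hx _ hy, add_zero, zero_add]
    have h1 := neg_nonpos hn fun i => a (Fin.castAdd l i)
    have h2 := neg_nonpos hn' fun i => a (Fin.natAdd k i)
    by_cases h0 : (fun i => a (Fin.castAdd l i)) = 0
    · have h3 : (fun i => a (Fin.natAdd k i)) ≠ 0 := by
        intro h4
        apply ha
        funext i
        refine Fin.addCases (fun j => ?_) (fun j => ?_) i
        · exact congrFun h0 j
        · exact congrFun h4 j
      have := hn' _ h3
      linarith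
    · have := hn _ h0
      linarith

theorem neg_transfer {q : LinearMap.BilinForm ℝ W} {U U' : Submodule ℝ W} (v : W →ₗ[ℝ] W)
    {κ : ℝ} (hκ : 0 < κ) (hv : ∀ f ∈ U, v f ∈ U') (hq : ∀ f ∈ U, q (v f) (v f) = κ * q f f)
    {m : ℕ} (hm : Neg q U m) : Neg q U' m := by
  obtain ⟨b, hb, hn⟩ := hm
  refine ⟨fun i => v (b i), fun i => hv _ (hb i), fun a ha => ?_⟩
  have hs : ∑ i, a i • v (b i) = v (∑ i, a i • b i) := by
    simp [map_sum]
  rw [hs, hq _ (Submodule.sum_mem _ fun i _ => Submodule.smul_mem _ _ (hb i))]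
  exact mul_neg_of_pos_of_neg hκ (hn a ha)

theorem neg_split {n : ℕ} {q : LinearMap.BilinForm ℝ W} (hsymm : ∀ f g, q f g = q g f)
    (P : Fin n → W →ₗ[ℝ] W) (hq : ∀ f, q f f = ∑ k, q (P k f) (P k f)) {m : ℕ}
    (h : Neg q ⊤ m) :
    ∃ d : Fin n → ℕ, m ≤ ∑ k, d k ∧ ∀ k, Neg q (LinearMap.range (P k)) (d k) := by
  classical
  set d : Fin n → ℕ := fun k => Nat.findGreatest (Neg q (LinearMap.range (P k))) m with hd
  have hdn : ∀ k, Neg q (LinearMap.range (P k)) (d k) := fun k =>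
    Nat.findGreatest_spec (Nat.zero_le m) (neg_zero' q _)
  refine ⟨d, ?_, hdn⟩
  by_contra hlt
  push Not at hlt
  obtain ⟨w, -, hw⟩ := h
  choose b hb hbn using hdn
  let L : (Fin m → ℝ) →ₗ[ℝ] W := Fintype.linearCombination ℝ w
  have hL : ∀ a, L a = ∑ i, a i • w i := fun a => Fintype.linearCombination_apply ℝ w a
  let Φ : (Fin m → ℝ) →ₗ[ℝ] ((Σ k, Fin (d k)) → ℝ) :=
    LinearMap.pi fun x => (q.flip (b x.1 x.2)) ∘ₗ (P x.1) ∘ₗ L
  have hker : LinearMap.ker Φ ≠ ⊥ := by
    apply LinearMap.ker_ne_bot_of_finrank_lt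
    rw [Module.finrank_fintype_fun_eq_card, Module.finrank_fintype_fun_eq_card]
    simpa using hlt
  obtain ⟨a, ha, ha0⟩ := Submodule.exists_mem_ne_zero_of_ne_bot hker
  have hΦ : ∀ k i, q (P k (L a)) (b k i) = 0 := by
    intro k i
    have := congrFun (LinearMap.mem_ker.1 ha) ⟨k, i⟩
    simpa [Φ] using this
  have hneg : q (L a) (L a) < 0 := by
    rw [hL]; exact hw a ha0
  have hex : ∃ k, q (P k (L a)) (P k (L a)) < 0 := by
    by_contra hno
    push Not at hno
    rw [hq] at hneg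
    exact absurd hneg (not_lt.2 (Finset.sum_nonneg fun k _ => hno k))
  obtain ⟨k, hk⟩ := hex
  have hdk : d k < m := lt_of_le_of_lt (Finset.single_le_sum (f := d)
    (fun _ _ => Nat.zero_le _) (Finset.mem_univ k)) hlt
  refine Nat.findGreatest_is_greatest (P := Neg q (LinearMap.range (P k))) (n := m)
    (k := d k + 1) (Nat.lt_succ_self _) hdk ?_
  refine ⟨Fin.cons (P k (L a)) (b k), fun i => ?_, fun c hc => ?_⟩
  · refine Fin.cases ?_ (fun j => ?_) i
    · simp
    · simpa using hb k j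
  · rw [Fin.sum_univ_succ]
    simp only [Fin.cons_zero, Fin.cons_succ]
    set x := P k (L a) with hx
    set y := ∑ i : Fin (d k), c i.succ • b k i with hy
    have hxy : q x y = 0 := by
      rw [hy, map_sum]
      refine Finset.sum_eq_zero fun i _ => ?_
      rw [map_smul, hΦ, smul_zero]
    have hyx : q y x = 0 := by rw [hsymm, hxy]
    have hexp : q (c 0 • x + y) (c 0 • x + y) = c 0 * c 0 * q x x + q y y := by
      simp only [map_add, LinearMap.add_apply, map_smul, LinearMap.smul_apply, smul_eq_mul]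
      rw [hxy, hyx]; ring
    rw [hexp]
    have hy0 : q y y ≤ 0 := neg_nonpos (hbn k) fun i => c i.succ
    by_cases hc0 : c 0 = 0
    · have h3 : (fun i : Fin (d k) => c i.succ) ≠ 0 := by
        intro h4
        apply hc
        funext i
        refine Fin.cases ?_ (fun j => ?_) i
        · exact hc0
        · exact congrFun h4 j
      have := hbn k _ h3
      rw [hc0]
      linarith
    · have : 0 < c 0 * c 0 := mul_self_pos.2 hc0
      nlinarith

end NegT

section Mu

variable {W : Type} [AddCommGroup W] [Module ℝ W]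

/-- min-max values on a subspace -/
noncomputable def muU (E B : LinearMap.BilinForm ℝ W) (U : Submodule ℝ W) (i : ℕ) : ℝ :=
  sInf {t : ℝ | 0 ≤ t ∧ ∃ V : Submodule ℝ W, V ≤ U ∧ Module.finrank ℝ V = i + 1 ∧
    ∀ f ∈ V, E f f ≤ t * B f f}

theorem muU_nonneg (E B : LinearMap.BilinForm ℝ W) (U : Submodule ℝ W) (i : ℕ) :
    0 ≤ muU E B U i := Real.sInf_nonneg fun _ ht => ht.1

theorem neg_of_muU_lt {E B : LinearMap.BilinForm ℝ W} {U : Submodule ℝ W} {i : ℕ} {t : ℝ}
    (hB : ∀ f, f ≠ 0 → 0 < B f f)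
    (hne : {t : ℝ | 0 ≤ t ∧ ∃ V : Submodule ℝ W, V ≤ U ∧ Module.finrank ℝ V = i + 1 ∧
      ∀ f ∈ V, E f f ≤ t * B f f}.Nonempty) (h : muU E B U i < t) :
    Neg (E - t • B) U (i + 1) := by
  obtain ⟨s, ⟨-, V, hVU, hV, hf⟩, hst⟩ := exists_lt_of_csInf_lt hne h
  have : Module.Finite ℝ V := Module.finite_of_finrank_eq_succ hV
  let bs := Module.finBasisOfFinrankEq ℝ V hV
  refine ⟨fun j => (bs j : W), fun j => hVU (bs j).2, fun a ha => ?_⟩
  have hmem : ∑ j, a j • (bs j : W) ∈ V :=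
    Submodule.sum_mem _ fun j _ => Submodule.smul_mem _ _ (bs j).2
  have hne0 : ∑ j, a j • (bs j : W) ≠ 0 := by
    intro h0
    apply ha
    have h1 : ∑ j, a j • bs j = 0 := by
      apply Subtype.ext
      simpa using h0
    exact funext fun j => (Fintype.linearIndependent_iff.1 bs.linearIndependent) a h1 j
  set f := ∑ j, a j • (bs j : W) with hfdef
  have h1 := hf f hmem
  have h2 := hB f hne0
  simp only [LinearMap.sub_apply, LinearMap.smul_apply, smul_eq_mul]
  nlinarith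

theorem muU_le_of_neg {E B : LinearMap.BilinForm ℝ W} {U : Submodule ℝ W} {i : ℕ} {t : ℝ}
    (hE : ∀ f, 0 ≤ E f f) (hB : ∀ f, f ≠ 0 → 0 < B f f) (h : Neg (E - t • B) U (i + 1)) :
    muU E B U i ≤ t := by
  obtain ⟨b, hb, hn⟩ := h
  simp only [LinearMap.sub_apply, LinearMap.smul_apply, smul_eq_mul] at hn
  refine csInf_le ⟨0, fun _ ht => ht.1⟩ ?_
  have hli : LinearIndependent ℝ b := by
    rw [Fintype.linearIndependent_iff]
    intro g hg
    by_contra hcon
    push Not at hcon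
    obtain ⟨j, hj⟩ := hcon
    have hg0 : g ≠ 0 := fun h => hj (congrFun h j)
    have := hn g hg0
    rw [hg] at this
    simp at this
  have hne : ∀ a : Fin (i + 1) → ℝ, a ≠ 0 → ∑ j, a j • b j ≠ 0 := by
    intro a ha h0
    exact ha (funext fun j => (Fintype.linearIndependent_iff.1 hli) a h0 j)
  refine ⟨?_, Submodule.span ℝ (Set.range b), ?_, ?_, ?_⟩
  · have h1 : (fun _ : Fin (i + 1) => (1 : ℝ)) ≠ 0 := fun h => by
      have := congrFun h 0
      simp at this
    have h2 := hn _ h1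
    have h3 := hB _ (hne _ h1)
    have h4 := hE (∑ j : Fin (i + 1), (1 : ℝ) • b j)
    by_contra hlt
    push Not at hlt
    nlinarith
  · rw [Submodule.span_le]
    rintro _ ⟨j, rfl⟩
    exact hb j
  · rw [finrank_span_eq_card hli, Fintype.card_fin]
  · intro f hf
    obtain ⟨a, rfl⟩ := (Submodule.mem_span_range_iff_exists_fun ℝ).1 hf
    by_cases ha : a = 0
    · subst ha; simp
    · have := hn a ha
      linarith

end Mu

theorem pairs_finite (x : ℕ → ℝ) (N : ℕ) (a b : ℝ) :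
    {p : ℕ × ℕ | p.1 < N ∧ p.2 < N ∧ p.1 ≠ p.2 ∧ a ≤ x p.1 - x p.2 ∧
    x p.1 - x p.2 ≤ b}.Finite := by
  refine ((Finset.range N ×ˢ Finset.range N).finite_toSet).subset ?_
  rintro ⟨j, k⟩ ⟨h1, h2, -⟩
  simp only [Finset.coe_product, Set.mem_prod, Finset.mem_coe, Finset.mem_range]
  exact ⟨h1, h2⟩

theorem growth {x : ℕ → ℝ} (hx : Monotone x) (h0 : ∀ k, 0 ≤ x k)
    (hP : Tendsto (fun N : ℕ => pairCorr x N (-1) 0) atTop (𝓝 1)) :
    ∃ N1 : ℕ, ∀ N, N1 ≤ N → (N : ℝ) / 6 - 1 ≤ x (N - 1) := by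
  have h1 : ∀ᶠ N : ℕ in atTop, pairCorr x N (-1) 0 < 3 / 2 :=
    hP.eventually_lt_const (by norm_num)
  obtain ⟨N1, hN1⟩ := eventually_atTop.1 h1
  refine ⟨N1 + 3, fun N hN => ?_⟩
  have hN3 : 3 ≤ N := by omega
  obtain ⟨n, rfl⟩ : ∃ n, N = n + 3 := ⟨N - 3, by omega⟩
  have hc := hN1 (n + 3) (by omega)
  have hpos : (0 : ℝ) < ((n + 3 : ℕ) : ℝ) := by positivity
  rw [pairCorr, div_lt_iff₀ hpos] at hc
  classical
  set D := (Finset.range n).filter fun j => x (j + 3) - x j ≤ 1 with hD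
  set T := {p : ℕ × ℕ | p.1 < n + 3 ∧ p.2 < n + 3 ∧ p.1 ≠ p.2 ∧ -1 ≤ x p.1 - x p.2 ∧
    x p.1 - x p.2 ≤ 0} with hT
  have hTf : T.Finite := pairs_finite x (n + 3) (-1) 0
  have hcard : 3 * D.card ≤ T.ncard := by
    have hinj : Set.InjOn (fun p : ℕ × ℕ => (p.1, p.1 + 1 + p.2))
        ((D ×ˢ Finset.range 3 : Finset (ℕ × ℕ)) : Set (ℕ × ℕ)) := by
      rintro ⟨a, b⟩ - ⟨c, d⟩ - h
      simp only [Prod.mk.injEq] at h ⊢
      omega
    have hsub : ((D ×ˢ Finset.range 3).image fun p : ℕ × ℕ => (p.1, p.1 + 1 + p.2) :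
        Finset (ℕ × ℕ)) ⊆ hTf.toFinset := by
      intro p hp
      simp only [Finset.mem_image, Finset.mem_product, Finset.mem_range, hD,
        Finset.mem_filter] at hp
      obtain ⟨⟨a, b⟩, ⟨⟨ha, hab⟩, hb⟩, rfl⟩ := hp
      simp only [Set.Finite.mem_toFinset, hT, Set.mem_ofPred_eq]
      simp only at hab hb ha
      have h2 : x (a + 1 + b) ≤ x (a + 3) := hx (by omega)
      have h3 : x a ≤ x (a + 1 + b) := hx (by omega)
      exact ⟨by omega, by omega, by omega, by linarith, by linarith⟩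
    have hcs := Finset.card_le_card hsub
    rw [Finset.card_image_of_injOn hinj, Finset.card_product, Finset.card_range,
      ← Set.ncard_eq_toFinset_card T hTf] at hcs
    omega
  have hsum : ∑ j ∈ Finset.range n, (x (j + 3) - x j) ≤ 3 * x (n + 2) := by
    have e1 : ∑ j ∈ Finset.range n, (x (j + 3) - x j) =
        ∑ j ∈ Finset.range n, ((fun i => x (i + 2)) (j + 1) - (fun i => x (i + 2)) j) +
        ∑ j ∈ Finset.range n, ((fun i => x (i + 1)) (j + 1) - (fun i => x (i + 1)) j) +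
        ∑ j ∈ Finset.range n, (x (j + 1) - x j) := by
      rw [← Finset.sum_add_distrib, ← Finset.sum_add_distrib]
      refine Finset.sum_congr rfl fun j _ => ?_
      have a1 : j + 1 + 2 = j + 3 := by ring
      have a2 : j + 1 + 1 = j + 2 := by ring
      simp only [a1, a2]
      ring
    rw [e1, Finset.sum_range_sub (fun i => x (i + 2)) n,
      Finset.sum_range_sub (fun i => x (i + 1)) n, Finset.sum_range_sub x n]
    have b1 : x (n + 1) ≤ x (n + 2) := hx (by omega)
    have b2 : x n ≤ x (n + 2) := hx (by omega)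
    have c0 := h0 (0 + 2)
    have c1 := h0 (0 + 1)
    have c2 := h0 0
    linarith
  have hsum2 : ((n : ℝ) - D.card) ≤ ∑ j ∈ Finset.range n, (x (j + 3) - x j) := by
    have e2 : ∑ j ∈ Finset.range n, (if j ∈ D then (0 : ℝ) else 1) ≤
        ∑ j ∈ Finset.range n, (x (j + 3) - x j) := by
      refine Finset.sum_le_sum fun j hj => ?_
      split_ifs with hjD
      · have := hx (show j ≤ j + 3 by omega)
        linarith
      · simp only [hD, Finset.mem_filter, not_and, not_le] at hjD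
        exact (hjD hj).le
    have e3 : ∑ j ∈ Finset.range n, (if j ∈ D then (0 : ℝ) else 1) = (n : ℝ) - D.card := by
      have e4 : ∀ j ∈ Finset.range n, (if j ∈ D then (0 : ℝ) else 1) =
          1 - (if j ∈ D then (1 : ℝ) else 0) := by
        intro j _
        split_ifs <;> simp
      have hDs : D ⊆ Finset.range n := Finset.filter_subset _ _
      rw [Finset.sum_congr rfl e4, Finset.sum_sub_distrib, Finset.sum_ite_mem,
        Finset.inter_eq_right.2 hDs, Finset.sum_const, Finset.sum_const, Finset.card_range,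
        nsmul_eq_mul, nsmul_eq_mul, mul_one, mul_one]
    linarith
  have hcard' : 3 * (D.card : ℝ) ≤ T.ncard := by exact_mod_cast hcard
  push_cast at hc ⊢
  have hn1 : n + 3 - 1 = n + 2 := by omega
  try rw [hn1]
  linarith

/-- The counting core. -/
theorem abs_core (A A1 A3 : ℝ → ℕ → Prop) (mu s : ℕ → ℝ) (C κ : ℝ) (hκ : 0 < κ)
    (ha : ∀ t m, A t m → ∃ m1 m2 m3, m ≤ m1 + m2 + m3 ∧ A1 t m1 ∧ A1 t m2 ∧ A3 t m3)
    (hb : ∀ t a b d, A1 t a → A1 t b → A3 t d → A t (a + b + d))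
    (hc1 : ∀ t t' m, t ≤ t' → A1 t m → A1 t' m) (hc3 : ∀ t t' m, t ≤ t' → A3 t m → A3 t' m)
    (hm : ∀ t m m', m' ≤ m → A t m → A t m') (hm1 : ∀ t m m', m' ≤ m → A1 t m → A1 t m')
    (h10 : ∀ t, A1 t 0) (h30 : ∀ t, A3 t 0)
    (hmu1 : ∀ k t, mu k < t → A t (k + 1)) (hmu2 : ∀ k t, A t (k + 1) → mu k ≤ t)
    (hs1 : ∀ i t, s i < t → A1 t (i + 1)) (hs2 : ∀ i t, A1 t (i + 1) → s i ≤ t)
    (hmu0 : ∀ k, 0 ≤ mu k) (hsC : ∀ i, s i ≤ C * (i + 1)) :
    ¬ (∀ a b : ℝ, a < b →
      Tendsto (fun N : ℕ => pairCorr (fun k => κ * mu k) N a b) atTop (𝓝 (b - a))) := by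
  intro hP
  have hmumono : Monotone mu := by
    refine monotone_nat_of_le_succ fun k => ?_
    refine le_of_forall_gt_imp_ge_of_dense fun t ht => ?_
    exact hmu2 k t (hm t _ _ (by omega) (hmu1 (k + 1) t ht))
  have hsmono : Monotone s := by
    refine monotone_nat_of_le_succ fun k => ?_
    refine le_of_forall_gt_imp_ge_of_dense fun t ht => ?_
    exact hs2 k t (hm1 t _ _ (by omega) (hs1 (k + 1) t ht))
  have hxmono : Monotone fun k => κ * mu k := fun a b h => by
    have := hmumono h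
    simp only
    nlinarith
  have hx0 : ∀ k, 0 ≤ κ * mu k := fun k => mul_nonneg hκ.le (hmu0 k)
  obtain ⟨N1, hN1⟩ := growth hxmono hx0 (by
    have := hP (-1) 0 (by norm_num)
    simpa using this)
  -- the counting function of the third part
  let S3 : ℝ → Set ℕ := fun r => {m | ∃ t, t < r ∧ A3 t m}
  have hS3ne : ∀ r, (S3 r).Nonempty := fun r => ⟨0, r - 1, by linarith, h30 _⟩
  have hS3bdd : ∀ r, BddAbove (S3 r) := by
    intro r
    refine ⟨max (N1 + 1) (⌈6 * (κ * r + 2)⌉₊ + 1), fun m hmS => ?_⟩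
    obtain ⟨t, htr, hA⟩ := hmS
    by_contra hlt
    push Not at hlt
    rw [max_lt_iff] at hlt
    obtain ⟨m', rfl⟩ : ∃ m', m = m' + 1 := ⟨m - 1, by omega⟩
    have h1 : A t (m' + 1) := by
      have := hb t 0 0 (m' + 1) (h10 t) (h10 t) hA
      simpa using this
    have h2 := hmu2 _ _ h1
    have h3 := hN1 (m' + 1) (by omega)
    simp only [Nat.add_sub_cancel] at h3
    have h4 : κ * mu m' ≤ κ * r := by nlinarith
    have h5 : (6 * (κ * r + 2) : ℝ) ≤ ⌈6 * (κ * r + 2)⌉₊ := Nat.le_ceil _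
    have h6 : ((⌈6 * (κ * r + 2)⌉₊ : ℕ) : ℝ) + 1 < ((m' + 1 : ℕ) : ℝ) := by
      exact_mod_cast hlt.2
    push_cast at h3 h6
    linarith
  let n3 : ℝ → ℕ := fun r => sSup (S3 r)
  have hn3mem : ∀ r, ∃ t, t < r ∧ A3 t (n3 r) := fun r => Nat.sSup_mem (hS3ne r) (hS3bdd r)
  have hn3le : ∀ r t m, t < r → A3 t m → m ≤ n3 r := fun r t m ht hA =>
    le_csSup (hS3bdd r) ⟨t, ht, hA⟩
  have hn3mono : ∀ r r', r ≤ r' → n3 r ≤ n3 r' := by
    intro r r' h
    obtain ⟨t, ht, hA⟩ := hn3mem r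
    exact hn3le r' t _ (ht.trans_le h) hA
  let J : ℕ → ℕ := fun i => 2 * i + n3 (s i)
  have hJstep : ∀ i, J i + 2 ≤ J (i + 1) := by
    intro i
    have := hn3mono _ _ (hsmono (Nat.le_succ i))
    simp only [J]
    simp only [Nat.succ_eq_add_one] at this
    omega
  have hJmono : StrictMono J := strictMono_nat_of_lt_succ fun i => by
    have := hJstep i
    omega
  have hJge : ∀ i, i ≤ J i := fun i => by simp only [J]; omega
  have hup : ∀ i, mu (J i + 1) ≤ s i := by
    intro i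
    refine le_of_forall_gt_imp_ge_of_dense fun t ht => ?_
    have h1 := hs1 i t ht
    obtain ⟨t', ht', hA⟩ := hn3mem (s i)
    have h3 := hc3 t' t _ (ht'.trans ht).le hA
    have h4 := hb t _ _ _ h1 h1 h3
    refine hmu2 _ _ (hm t _ _ ?_ h4)
    simp only [J]
    omega
  have hlow : ∀ i, s i ≤ mu (J i) := by
    intro i
    by_contra hlt
    push Not at hlt
    obtain ⟨t, ht1, ht2⟩ := exists_between hlt
    obtain ⟨m1, m2, m3, hle, hA1, hA2, hA3⟩ := ha t _ (hmu1 _ t ht1)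
    have h3 := hn3le (s i) t m3 ht2 hA3
    have h4 : i + 1 ≤ m1 ∨ i + 1 ≤ m2 := by
      simp only [J] at hle
      omega
    rcases h4 with h4 | h4
    · have := hs2 i t (hm1 t _ _ h4 hA1)
      linarith
    · have := hs2 i t (hm1 t _ _ h4 hA2)
      linarith
  have heq1 : ∀ i, mu (J i) = s i := fun i =>
    le_antisymm ((hmumono (Nat.le_succ _)).trans (hup i)) (hlow i)
  have heq2 : ∀ i, mu (J i + 1) = s i := fun i =>
    le_antisymm (hup i) ((hlow i).trans (hmumono (Nat.le_succ _)))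
  -- contradiction
  have hC0 : 0 ≤ C := by
    have h1 := hsC 0
    have h2 := hmu0 (J 0)
    rw [heq1] at h2
    simp at h1
    linarith
  set K : ℝ := 6 + 6 * κ * C with hK
  have hKpos : 0 < K := by
    have : 0 ≤ κ * C := mul_nonneg hκ.le hC0
    rw [hK]
    nlinarith
  set ε : ℝ := 1 / (4 * K) with hε
  have hεpos : 0 < ε := by positivity
  have hlim := hP (-ε) ε (by linarith)
  have h2ε : ε - -ε < 1 / K := by
    rw [hε]
    have : 1 / (4 * K) - -(1 / (4 * K)) = 1 / K / 2 := by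
      field_simp
      ring
    rw [this]
    have : 0 < 1 / K := by positivity
    linarith
  obtain ⟨N2, hN2⟩ := eventually_atTop.1 (hlim.eventually_lt_const h2ε)
  set i := N1 + N2 with hi
  have hJi := hJge i
  have hgr := hN1 (J i + 2) (by omega)
  have hlt := hN2 (J i + 2) (by omega)
  have hidx : J i + 2 - 1 = J i + 1 := by omega
  rw [hidx] at hgr
  rw [heq2] at hgr
  have hNle : (((J i + 2 : ℕ) : ℝ)) ≤ K * (i + 1) := by
    have h1 := hsC i
    have h2 : κ * s i ≤ κ * (C * (i + 1)) := by nlinarith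
    have h3 : (0 : ℝ) ≤ i := Nat.cast_nonneg i
    rw [hK]
    nlinarith
  have hNpos : (0 : ℝ) < ((J i + 2 : ℕ) : ℝ) := by positivity
  set T := {p : ℕ × ℕ | p.1 < J i + 2 ∧ p.2 < J i + 2 ∧ p.1 ≠ p.2 ∧
    -ε ≤ (fun k => κ * mu k) p.1 - (fun k => κ * mu k) p.2 ∧
    (fun k => κ * mu k) p.1 - (fun k => κ * mu k) p.2 ≤ ε} with hT
  have hTf : T.Finite := pairs_finite (fun k => κ * mu k) (J i + 2) (-ε) ε
  have hcard : i + 1 ≤ T.ncard := by
    classical
    have hinj : Set.InjOn (fun l : ℕ => (J l, J l + 1)) (Finset.range (i + 1) : Set ℕ) := by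
      intro a _ b _ h
      simp only [Prod.mk.injEq] at h
      exact hJmono.injective h.1
    have hsub : (Finset.range (i + 1)).image (fun l : ℕ => (J l, J l + 1)) ⊆ hTf.toFinset := by
      intro p hp
      simp only [Finset.mem_image, Finset.mem_range] at hp
      obtain ⟨l, hl, rfl⟩ := hp
      simp only [Set.Finite.mem_toFinset, hT, Set.mem_ofPred_eq]
      have h1 : J l ≤ J i := hJmono.monotone (by omega)
      rw [heq1, heq2]
      exact ⟨by omega, by omega, by omega, by linarith, by linarith⟩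
    have := Finset.card_le_card hsub
    rw [Finset.card_image_of_injOn hinj, Finset.card_range,
      ← Set.ncard_eq_toFinset_card T hTf] at this
    exact this
  rw [pairCorr, div_lt_iff₀ hNpos] at hlt
  have hcard' : ((i : ℝ) + 1) ≤ T.ncard := by exact_mod_cast hcard
  have h5 : 1 / K * ((J i + 2 : ℕ) : ℝ) ≤ (i : ℝ) + 1 := by
    rw [div_mul_eq_mul_div, one_mul, div_le_iff₀ hKpos]
    linarith [mul_comm K ((i : ℝ) + 1)]
  linarith

end Pool.Agent.E8helper54.HM
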